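import Mathlib
import Pool.Agent.N368.TS.Mo

/-!
# The pairs `(A, B)` in boxes are uniformly distributed in the residue classes
-/

set_option autoImplicit false

namespace Pool.Agent.L0h45.LT

open Finset
open Pool.Agent.N368.TS (PerV bx mem_bx av PEV)

theorem per_shift (M : ℕ) (f : ℤ → ℝ) (hf : ∀ n : ℤ, f (n + M) = f n) (c : ℤ) :
    ∑ i ∈ range M, f (c + i) = ∑ i ∈ range M, f i := by
  have step : ∀ c : ℤ, ∑ i ∈ range M, f (c + 1 + i) = ∑ i ∈ range M, f (c + i) := by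
    intro c
    have h1 := sum_range_succ (fun i : ℕ => f (c + i)) M
    have h2 := sum_range_succ' (fun i : ℕ => f (c + i)) M
    rw [h1] at h2
    have h3 : ∑ i ∈ range M, f (c + ((i + 1 : ℕ) : ℤ)) = ∑ i ∈ range M, f (c + 1 + i) := by
      refine sum_congr rfl fun i _ => ?_
      congr 1
      push_cast
      ring
    rw [h3, hf] at h2
    simp only [Nat.cast_zero, add_zero] at h2
    linarith
  induction c using Int.induction_on with
  | zero => simp
  | succ n ih => rw [step, ih]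
  | pred n ih =>
    have h := step (-(n : ℤ) - 1)
    rw [sub_add_cancel] at h
    rw [← h, ih]

theorem per_sum (M : ℕ) (hM : 1 ≤ M) (f : ℤ → ℝ) (hf : ∀ n : ℤ, f (n + M) = f n) (B : ℝ)
    (hB : ∀ n, |f n| ≤ B) (c : ℤ) : ∀ n : ℕ,
    |∑ i ∈ range n, f (c + i) - (n : ℝ) / M * ∑ i ∈ range M, f i| ≤ 2 * M * B := by
  have hM0 : (0 : ℝ) < M := by exact_mod_cast hM
  have hB0 : 0 ≤ B := (abs_nonneg _).trans (hB 0)
  have hS : |∑ i ∈ range M, f i| ≤ M * B := by
    refine (abs_sum_le_sum_abs _ _).trans ?_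
    calc ∑ i ∈ range M, |f i| ≤ ∑ i ∈ range M, B := sum_le_sum fun i _ => hB _
      _ = M * B := by rw [sum_const, card_range, nsmul_eq_mul]
  intro n
  induction n using Nat.strong_induction_on with
  | _ n ih =>
    rcases lt_or_ge n M with h | h
    · have h1 : |∑ i ∈ range n, f (c + i)| ≤ M * B := by
        refine (abs_sum_le_sum_abs _ _).trans ?_
        calc ∑ i ∈ range n, |f (c + i)| ≤ ∑ i ∈ range n, B := sum_le_sum fun i _ => hB _
          _ = n * B := by rw [sum_const, card_range, nsmul_eq_mul]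
          _ ≤ M * B := by gcongr
      have h2 : |(n : ℝ) / M * ∑ i ∈ range M, f i| ≤ M * B := by
        rw [abs_mul, abs_of_nonneg (by positivity : (0 : ℝ) ≤ (n : ℝ) / M)]
        have h3 : (n : ℝ) / M ≤ 1 := by
          rw [div_le_one hM0]
          exact_mod_cast h.le
        calc (n : ℝ) / M * |∑ i ∈ range M, f i| ≤ 1 * (M * B) := by gcongr
          _ = M * B := one_mul _
      calc _ ≤ |∑ i ∈ range n, f (c + i)| + |(n : ℝ) / M * ∑ i ∈ range M, f i| := abs_sub _ _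
        _ ≤ 2 * M * B := by linarith
    · obtain ⟨m, rfl⟩ := Nat.exists_eq_add_of_le' h
      have h1 := ih m (by omega)
      have h2 : ∑ i ∈ range (m + M), f (c + i) = ∑ i ∈ range m, f (c + i) +
          ∑ i ∈ range M, f i := by
        rw [sum_range_add, ← per_shift M f hf (c + m)]
        congr 1
        refine sum_congr rfl fun i _ => ?_
        congr 1
        push_cast
        ring
      rw [h2]
      have h3 : ((m + M : ℕ) : ℝ) / M * ∑ i ∈ range M, f i =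
          (m : ℝ) / M * ∑ i ∈ range M, f i + ∑ i ∈ range M, f i := by
        push_cast
        field_simp
      rw [h3]
      have h4 : ∑ i ∈ range m, f (c + i) + ∑ i ∈ range M, f i - ((m : ℝ) / M *
          ∑ i ∈ range M, f i + ∑ i ∈ range M, f i) = ∑ i ∈ range m, f (c + i) -
          (m : ℝ) / M * ∑ i ∈ range M, f i := by ring
      rw [h4]
      exact h1

theorem sum_Icc_eq (L : ℕ) (f : ℤ → ℝ) :
    ∑ n ∈ Icc (-(L : ℤ)) L, f n = ∑ i ∈ range (2 * L + 1), f (-(L : ℤ) + i) := by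
  symm
  refine sum_bij (fun i _ => -(L : ℤ) + (i : ℤ)) ?_ ?_ ?_ ?_
  · intro i hi
    rw [mem_range] at hi
    rw [mem_Icc]
    constructor <;> omega
  · intro i _ j _ h
    omega
  · intro n hn
    rw [mem_Icc] at hn
    refine ⟨(n + L).toNat, ?_, ?_⟩
    · rw [mem_range]
      omega
    · omega
  · intro i _
    rfl

/-- sums over symmetric intervals -/
theorem Icc_sum (M : ℕ) (hM : 1 ≤ M) (f : ℤ → ℝ) (hf : ∀ n : ℤ, f (n + M) = f n) (B : ℝ)
    (hB : ∀ n, |f n| ≤ B) (L : ℕ) :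
    |∑ n ∈ Icc (-(L : ℤ)) L, f n - ((2 * L + 1 : ℕ) : ℝ) / M * ∑ i ∈ range M, f i| ≤ 2 * M * B := by
  rw [sum_Icc_eq]
  exact per_sum M hM f hf B hB _ _

/-- sums over boxes -/
theorem box_sum (M : ℕ) (hM : 1 ≤ M) (F : (Fin 2 → ℤ) → ℝ) (hF : PerV F M) (hF1 : ∀ n, |F n| ≤ 1)
    (hav : av M F = 0) (K L : ℕ) :
    |∑ a ∈ Icc (-(K : ℤ)) K, ∑ b ∈ Icc (-(L : ℤ)) L, F ![a, b]| ≤
      2 * M * ((2 * K + 1 : ℕ) + (2 * L + 1 : ℕ)) := by
  have hM0 : (0 : ℝ) < M := by exact_mod_cast hM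
  have hper1 : ∀ a n : ℤ, F ![a, n + M] = F ![a, n] := by
    intro a n
    apply hF
    intro i
    fin_cases i <;> simp
  have hper2 : ∀ n b : ℤ, F ![n + M, b] = F ![n, b] := by
    intro n b
    apply hF
    intro i
    fin_cases i <;> simp
  obtain ⟨g, hg⟩ : ∃ g : ℤ → ℝ, g = fun a => ∑ i ∈ range M, F ![a, (i : ℤ)] := ⟨_, rfl⟩
  have hgB : ∀ a, |g a| ≤ M := by
    intro a
    rw [hg]
    refine (abs_sum_le_sum_abs _ _).trans ?_
    calc ∑ i ∈ range M, |F ![a, (i : ℤ)]| ≤ ∑ i ∈ range M, (1 : ℝ) := sum_le_sum fun i _ => hF1 _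
      _ = M := by rw [sum_const, card_range, nsmul_eq_mul, mul_one]
  have hgper : ∀ n : ℤ, g (n + M) = g n := by
    intro n
    rw [hg]
    exact sum_congr rfl fun i _ => hper2 _ _
  have hg0 : ∑ i ∈ range M, g i = 0 := by
    have h1 : ∑ t ∈ bx (Fin 2) M, F (fun i => (t i : ℤ)) = 0 := by
      unfold av at hav
      rw [div_eq_zero_iff] at hav
      rcases hav with h | h
      · exact h
      · exfalso
        have : (0 : ℝ) < (M : ℝ) ^ Fintype.card (Fin 2) := by positivity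
        linarith
    rw [← h1, hg]
    simp only
    rw [← sum_product']
    symm
    refine sum_bij (fun t _ => (t 0, t 1)) ?_ ?_ ?_ ?_
    · intro t ht
      rw [mem_bx] at ht
      rw [mem_product, mem_range, mem_range]
      exact ⟨ht 0, ht 1⟩
    · intro t _ t' _ h
      rw [Prod.mk.injEq] at h
      funext i
      fin_cases i
      · exact h.1
      · exact h.2
    · rintro ⟨x, y⟩ hxy
      rw [mem_product, mem_range, mem_range] at hxy
      refine ⟨![x, y], ?_, ?_⟩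
      · rw [mem_bx]
        intro i
        fin_cases i
        · exact hxy.1
        · exact hxy.2
      · rfl
    · intro t _
      congr 1
      funext i
      fin_cases i <;> rfl
  have h1 : ∀ a : ℤ, |∑ b ∈ Icc (-(L : ℤ)) L, F ![a, b] - ((2 * L + 1 : ℕ) : ℝ) / M * g a| ≤
      2 * M := by
    intro a
    have h2 := Icc_sum M hM (fun n => F ![a, n]) (fun n => hper1 a n) 1 (fun n => hF1 _) L
    rw [mul_one] at h2
    rw [hg]
    exact h2
  have h2 := Icc_sum M hM g hgper M hgB K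
  rw [hg0, mul_zero, sub_zero] at h2
  have h3 : ∑ a ∈ Icc (-(K : ℤ)) K, ∑ b ∈ Icc (-(L : ℤ)) L, F ![a, b] =
      ∑ a ∈ Icc (-(K : ℤ)) K, (∑ b ∈ Icc (-(L : ℤ)) L, F ![a, b] -
        ((2 * L + 1 : ℕ) : ℝ) / M * g a) + ((2 * L + 1 : ℕ) : ℝ) / M *
        ∑ a ∈ Icc (-(K : ℤ)) K, g a := by
    rw [mul_sum, ← sum_add_distrib]
    exact sum_congr rfl fun a _ => by ring
  have hcard : ((Icc (-(K : ℤ)) K).card : ℝ) = (2 * K + 1 : ℕ) := by
    rw [Int.card_Icc]
    congr 1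
    omega
  rw [h3]
  calc _ ≤ |∑ a ∈ Icc (-(K : ℤ)) K, (∑ b ∈ Icc (-(L : ℤ)) L, F ![a, b] -
        ((2 * L + 1 : ℕ) : ℝ) / M * g a)| + |((2 * L + 1 : ℕ) : ℝ) / M *
        ∑ a ∈ Icc (-(K : ℤ)) K, g a| := abs_add_le _ _
    _ ≤ (2 * K + 1 : ℕ) * (2 * M) + ((2 * L + 1 : ℕ) : ℝ) / M * (2 * M * M) := by
        apply add_le_add
        · refine (abs_sum_le_sum_abs _ _).trans ?_
          calc _ ≤ ∑ a ∈ Icc (-(K : ℤ)) K, (2 * M : ℝ) := sum_le_sum fun a _ => h1 a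
            _ = _ := by rw [sum_const, nsmul_eq_mul, hcard]
        · rw [abs_mul, abs_of_nonneg (by positivity : (0 : ℝ) ≤ ((2 * L + 1 : ℕ) : ℝ) / M)]
          gcongr
    _ = 2 * M * ((2 * K + 1 : ℕ) + (2 * L + 1 : ℕ)) := by field_simp

/-! ### The enumeration -/

/-- the size of the box -/
def sz (N : ℕ) : ℕ := Nat.findGreatest (fun T => 9 * T ^ 5 ≤ N) N

theorem sz_le (N : ℕ) : 9 * (sz N) ^ 5 ≤ N := by
  have h := Nat.findGreatest_spec (P := fun T => 9 * T ^ 5 ≤ N) (Nat.zero_le N) (by simp)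
  exact h

theorem sz_eq (T : ℕ) : sz (9 * T ^ 5) = T := by
  apply le_antisymm
  · by_contra hcon
    push Not at hcon
    have h1 := sz_le (9 * T ^ 5)
    have h2 : T ^ 5 < (sz (9 * T ^ 5)) ^ 5 := Nat.pow_lt_pow_left hcon (by norm_num)
    omega
  · apply Nat.le_findGreatest
    · rcases Nat.eq_zero_or_pos T with h | h
      · rw [h]; simp
      · calc T ≤ T ^ 5 := Nat.le_self_pow (by norm_num) T
          _ ≤ 9 * T ^ 5 := by omega
    · exact le_rfl

/-- the box -/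
noncomputable def bxP (T : ℕ) : Finset (ℤ × ℤ) := Icc (-((T ^ 2 : ℕ) : ℤ)) (T ^ 2 : ℕ) ×ˢ
  Icc (-((T ^ 3 : ℕ) : ℤ)) (T ^ 3 : ℕ)

/-- the numbering of the pairs -/
def cod : ℤ × ℤ ≃ ℕ := Denumerable.eqv (ℤ × ℤ)

/-- the numbers of the pairs in the box -/
noncomputable def SB (N : ℕ) : Finset ℕ := (bxP (sz N)).image cod

/-- the pair with a given number -/
def vB (n : ℕ) : Fin 2 → ℤ := ![(cod.symm n).1, (cod.symm n).2]

theorem bxP_card (T : ℕ) : (bxP T).card = (2 * T ^ 2 + 1) * (2 * T ^ 3 + 1) := by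
  unfold bxP
  rw [card_product, Int.card_Icc, Int.card_Icc]
  congr 1 <;> omega

theorem pev : PEV SB vB 1 (2 / 5) 12 := by
  refine ⟨one_pos, le_rfl, by norm_num, by norm_num, by norm_num, ?_, ?_⟩
  · intro N _
    have h1 : (SB N).card ≤ N + 1 := by
      unfold SB
      refine card_image_le.trans ?_
      rw [bxP_card]
      have h2 := sz_le N
      rcases Nat.eq_zero_or_pos (sz N) with h | h
      · rw [h]
        omega
      · have h3 : 2 * (sz N) ^ 2 + 1 ≤ 3 * (sz N) ^ 2 := by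
          have : 1 ≤ (sz N) ^ 2 := Nat.one_le_pow _ _ h
          omega
        have h4 : 2 * (sz N) ^ 3 + 1 ≤ 3 * (sz N) ^ 3 := by
          have : 1 ≤ (sz N) ^ 3 := Nat.one_le_pow _ _ h
          omega
        calc (2 * (sz N) ^ 2 + 1) * (2 * (sz N) ^ 3 + 1) ≤ (3 * (sz N) ^ 2) * (3 * (sz N) ^ 3) :=
              Nat.mul_le_mul h3 h4
          _ = 9 * (sz N) ^ 5 := by ring
          _ ≤ N := h2
          _ ≤ N + 1 := by omega
    exact_mod_cast h1
  · intro N hN M hM _ F hF hF1 hav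
    have hN1 : (1 : ℝ) ≤ N := by exact_mod_cast hN
    obtain ⟨T, hT⟩ : ∃ T, T = sz N := ⟨_, rfl⟩
    have h1 : ∑ n ∈ SB N, F (vB n) = ∑ a ∈ Icc (-((T ^ 2 : ℕ) : ℤ)) (T ^ 2 : ℕ),
        ∑ b ∈ Icc (-((T ^ 3 : ℕ) : ℤ)) (T ^ 3 : ℕ), F ![a, b] := by
      unfold SB
      rw [sum_image (fun a _ b _ h => cod.injective h), ← hT]
      unfold bxP
      rw [sum_product]
      refine sum_congr rfl fun a _ => sum_congr rfl fun b _ => ?_
      unfold vB
      rw [Equiv.symm_apply_apply]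
    rw [h1]
    refine (box_sum M hM F hF hF1 hav (T ^ 2) (T ^ 3)).trans ?_
    have hM0 : (0 : ℝ) < M := by exact_mod_cast hM
    have h2 : (T : ℝ) ^ 3 ≤ (N : ℝ) ^ (1 - 2 / 5 : ℝ) := by
      have h3 : (T : ℝ) ^ 5 ≤ N := by
        have h4 := sz_le N
        rw [← hT] at h4
        have h5 : T ^ 5 ≤ N := by omega
        exact_mod_cast h5
      calc (T : ℝ) ^ 3 = ((T : ℝ) ^ 5) ^ (3 / 5 : ℝ) := by
            rw [← Real.rpow_natCast (T : ℝ) 5, ← Real.rpow_mul (Nat.cast_nonneg _),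
              ← Real.rpow_natCast]
            norm_num
        _ ≤ (N : ℝ) ^ (3 / 5 : ℝ) := Real.rpow_le_rpow (by positivity) h3 (by norm_num)
        _ = (N : ℝ) ^ (1 - 2 / 5 : ℝ) := by norm_num
    have h3 : (1 : ℝ) ≤ (N : ℝ) ^ (1 - 2 / 5 : ℝ) := Real.one_le_rpow hN1 (by norm_num)
    have h4 : (T : ℝ) ^ 2 ≤ (N : ℝ) ^ (1 - 2 / 5 : ℝ) := by
      rcases Nat.eq_zero_or_pos T with h | h
      · rw [h]
        norm_num
        positivity
      · have h5 : (1 : ℝ) ≤ T := by exact_mod_cast h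
        calc (T : ℝ) ^ 2 ≤ (T : ℝ) ^ 3 := pow_le_pow_right₀ h5 (by norm_num)
          _ ≤ _ := h2
    push_cast
    calc 2 * (M : ℝ) * ((2 * (T : ℝ) ^ 2 + 1) + (2 * (T : ℝ) ^ 3 + 1)) ≤
          2 * M * ((2 * (N : ℝ) ^ (1 - 2 / 5 : ℝ) + (N : ℝ) ^ (1 - 2 / 5 : ℝ)) +
          (2 * (N : ℝ) ^ (1 - 2 / 5 : ℝ) + (N : ℝ) ^ (1 - 2 / 5 : ℝ))) := by gcongr
      _ = M * (12 * (N : ℝ) ^ (1 - 2 / 5 : ℝ)) := by ring

end Pool.Agent.L0h45.LT
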